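import Mathlib

set_option autoImplicit false
open Set Cardinal MeasureTheory
open scoped Ordinal

namespace Pool.Agent.Results.MP_04ddd8_lc.SelectorAlgebra

/-- points which are not images of smaller points under the maps `F n` -/
def Fresh {α : Type} [LinearOrder α] (F : ℕ → α → α) : Set α :=
  {x | ∀ n, ∀ y, y < x → F n y ≠ x}

theorem fresh_merge {α : Type} [LinearOrder α] (F : ℕ → ℕ → α → α) (k : ℕ) :
    Fresh (fun n => F n.unpair.1 n.unpair.2) ⊆ Fresh (F k) := by
  intro x hx n y hy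
  have := hx (Nat.pair k n) y hy
  simpa using this

/-- the iterated images -/
def evalL {α : Type} (F : ℕ → α → α) (l : List ℕ) (z : α) : α :=
  l.foldr (fun n w => F n w) z

theorem fresh_unbounded {α : Type} [LinearOrder α] [WellFoundedLT α] (hα : #α = 𝔠)
    (hord : ord #α = typeLT α) (F : ℕ → α → α) (y0 : α) :
    ∃ x ∈ Fresh F, y0 < x := by
  by_contra hcon
  push Not at hcon
  have key : ∀ x : α, ∃ l : List ℕ, ∃ z : α, z ≤ y0 ∧ x = evalL F l z := by
    intro x
    induction x using WellFoundedLT.induction with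
    | ind x ih =>
      by_cases hx : x ≤ y0
      · exact ⟨[], x, hx, rfl⟩
      · have hnf : x ∉ Fresh F := fun h => hx (hcon x h)
        unfold Fresh at hnf
        simp only [Set.mem_ofPred_eq, not_forall, not_not] at hnf
        obtain ⟨n, y, hyx, hny⟩ := hnf
        obtain ⟨l, z, hz, hl⟩ := ih y hyx
        refine ⟨n :: l, z, hz, ?_⟩
        rw [← hny, hl]
        rfl
  have hsurj : Function.Surjective (fun q : List ℕ × Set.Iic y0 => evalL F q.1 q.2.1) := by
    intro x
    obtain ⟨l, z, hz, hl⟩ := key x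
    exact ⟨(l, ⟨z, hz⟩), hl.symm⟩
  have h1 : #α ≤ #(List ℕ × Set.Iic y0) := Cardinal.mk_le_of_surjective hsurj
  have h2 : #(Set.Iio y0) < #α := mk_Iio_lt y0 hord
  have h3 : #(Set.Iic y0) < 𝔠 := by
    rw [← Set.Iio_insert]
    calc #(insert y0 (Set.Iio y0) : Set α) ≤ #(Set.Iio y0) + 1 := Cardinal.mk_insert_le
      _ < 𝔠 := Cardinal.add_lt_of_lt Cardinal.aleph0_le_continuum (hα ▸ h2)
          (Cardinal.nat_lt_continuum 1 |>.trans_eq' (by simp))
  have h4 : #(List ℕ × Set.Iic y0) < 𝔠 := by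
    rw [Cardinal.mk_prod, Cardinal.lift_id, Cardinal.lift_id]
    refine Cardinal.mul_lt_of_lt Cardinal.aleph0_le_continuum ?_ h3
    exact (Cardinal.mk_le_aleph0).trans_lt Cardinal.aleph0_lt_continuum
  rw [hα] at h1
  exact absurd h1 (not_le.mpr h4)

/-- The sets agreeing with a set of `m0` on the fresh points of some sequence of maps. -/
@[reducible]
def bigAlg {α : Type} [LinearOrder α] (m0 : MeasurableSpace α) : MeasurableSpace α where
  MeasurableSet' A := ∃ B, MeasurableSet[m0] B ∧ ∃ F : ℕ → α → α, ∀ x ∈ Fresh F, (x ∈ A ↔ x ∈ B)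
  measurableSet_empty := ⟨∅, @MeasurableSet.empty _ m0, fun _ => id, fun _ _ => Iff.rfl⟩
  measurableSet_compl := by
    rintro A ⟨B, hB, F, h⟩
    refine ⟨Bᶜ, hB.compl, F, ?_⟩
    intro x hx
    rw [Set.mem_compl_iff, Set.mem_compl_iff, h x hx]
  measurableSet_iUnion := by
    intro A hA
    choose B hB F hF using hA
    refine ⟨⋃ n, B n, MeasurableSet.iUnion hB, fun n => F n.unpair.1 n.unpair.2, ?_⟩
    intro x hx
    simp only [Set.mem_iUnion]
    exact exists_congr (fun n => hF n x (fresh_merge F n hx))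

theorem core (α : Type) [LinearOrder α] [WellFoundedLT α] (hα : #α = 𝔠)
    (hord : ord #α = typeLT α) (m0 : MeasurableSpace α)
    (hm0 : #{s : Set α // MeasurableSet[m0] s} ≤ 𝔠) :
    (∀ P : Set (Set α), (∀ p ∈ P, p.Nontrivial) → P.PairwiseDisjoint id →
        ∃ S, MeasurableSet[bigAlg m0] S ∧ ∀ p ∈ P, ∃! x, x ∈ S ∩ p) ∧
      ∃ X, ¬ MeasurableSet[bigAlg m0] X := by
  classical
  constructor
  · intro P hP hdisj
    -- least and another element of each piece
    have hmin : ∀ p : P, ∃ a b : α, a ∈ p.1 ∧ b ∈ p.1 ∧ a < b := by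
      rintro ⟨p, hp⟩
      obtain ⟨a, ha, b, hb, hab⟩ := hP p hp
      rcases lt_or_gt_of_ne hab with h | h
      · exact ⟨a, b, ha, hb, h⟩
      · exact ⟨b, a, hb, ha, h⟩
    choose a b ha hb hab using hmin
    let S : Set α := Set.range b
    let Fa : α → α := fun y => if h : ∃ p : P, a p = y then b h.choose else y
    have huniq : ∀ p q : P, ∀ x, x ∈ p.1 → x ∈ q.1 → p = q := by
      intro p q x hx hy
      by_contra hne
      have hne' : p.1 ≠ q.1 := fun h => hne (Subtype.ext h)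
      have := hdisj p.2 q.2 hne'
      exact Set.disjoint_left.mp this hx hy
    have hFa : ∀ p : P, Fa (a p) = b p := by
      intro p
      have hex : ∃ q : P, a q = a p := ⟨p, rfl⟩
      have : hex.choose = p := huniq _ _ (a p) (by have := ha hex.choose; rwa [hex.choose_spec] at this) (ha p)
      simp only [Fa, hex, dif_pos]
      rw [this]
    refine ⟨S, ⟨∅, @MeasurableSet.empty _ m0, fun _ => Fa, ?_⟩, ?_⟩
    · intro x hx
      simp only [Set.mem_empty_iff_false, iff_false]
      rintro ⟨p, rfl⟩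
      exact hx 0 (a p) (hab p) (hFa p)
    · intro p hp
      refine ⟨b ⟨p, hp⟩, ⟨⟨⟨p, hp⟩, rfl⟩, hb ⟨p, hp⟩⟩, ?_⟩
      rintro y ⟨⟨q, rfl⟩, hy⟩
      have := huniq q ⟨p, hp⟩ (b q) (hb q) hy
      rw [this]
  · by_contra hcon
    push Not at hcon
    let T := ℕ → {s : Set α // MeasurableSet[m0] s}
    have hT : #T ≤ #α := by
      rw [hα]
      calc #T = #{s : Set α // MeasurableSet[m0] s} ^ ℵ₀ := by simp [T]
        _ ≤ 𝔠 ^ ℵ₀ := Cardinal.power_le_power_right hm0
        _ = 𝔠 := Cardinal.continuum_power_aleph0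
    have : Nonempty T := ⟨fun _ => ⟨∅, @MeasurableSet.empty _ m0⟩⟩
    obtain ⟨e⟩ := hT
    let e' : α → T := Function.invFun e
    have he' : ∀ t, e' (e t) = t := fun t => Function.leftInverse_invFun e.injective t
    -- the diagonal function
    let g : α → α → Set ℕ := fun y x => {n | x ∈ (e' y n).1}
    have hdiag : ∀ x : α, ∃ s : Set ℕ, ∀ y, y < x → g y x ≠ s := by
      intro x
      by_contra hno
      push Not at hno
      have hs : Function.Surjective (fun y : Set.Iio x => g y.1 x) := by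
        intro s
        obtain ⟨y, hy, hys⟩ := hno s
        exact ⟨⟨y, hy⟩, hys⟩
      have h1 := Cardinal.mk_le_of_surjective hs
      have h2 : #(Set.Iio x) < #α := mk_Iio_lt x hord
      rw [Cardinal.mk_set, Cardinal.mk_nat, Cardinal.two_power_aleph0] at h1
      rw [hα] at h2
      exact absurd h1 (not_le.mpr h2)
    choose f hf using hdiag
    have hX : ∀ n : ℕ, ∃ B, MeasurableSet[m0] B ∧ ∃ F : ℕ → α → α, ∀ x ∈ Fresh F,
        (x ∈ {x | n ∈ f x} ↔ x ∈ B) := fun n => hcon {x | n ∈ f x}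
    choose B hB F hF using hX
    let t : T := fun n => ⟨B n, hB n⟩
    obtain ⟨x, hx, hlt⟩ := fresh_unbounded hα hord (fun n => F n.unpair.1 n.unpair.2) (e t)
    apply hf x (e t) hlt
    ext n
    simp only [g, Set.mem_ofPred_eq, he']
    exact (hF n x (fresh_merge F n hx)).symm

/-- For every nondegenerate interval `I` of the real line there is a family `N` of subsets of `I`
which contains all subintervals of `I`, is closed under complements in `I` and countable unions,
contains a selector of every partition of `I` into pieces with at least two elements,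
and which is not the family of all subsets of `I`. -/
theorem result (I : Set ℝ) (hI : I.OrdConnected) (hI2 : I.Nontrivial) :
    ∃ N : Set (Set ℝ),
      (∀ A ∈ N, A ⊆ I) ∧
      (∀ J : Set ℝ, J ⊆ I → J.OrdConnected → J ∈ N) ∧
      (∀ A ∈ N, I \ A ∈ N) ∧
      (∀ A : ℕ → Set ℝ, (∀ n, A n ∈ N) → (⋃ n, A n) ∈ N) ∧
      (∀ P : Set (Set ℝ), (∀ p ∈ P, p.Nontrivial) → P.PairwiseDisjoint id → ⋃₀ P = I →
        ∃ S ∈ N, ∀ p ∈ P, ∃! x, x ∈ S ∩ p) ∧
      ∃ X : Set ℝ, X ⊆ I ∧ X ∉ N := by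
  classical
  have hcard : #I = 𝔠 := by
    obtain ⟨a, ha, b, hb, hab⟩ := hI2
    apply le_antisymm
    · rw [← Cardinal.mk_real]; exact Cardinal.mk_set_le I
    · rcases lt_or_gt_of_ne hab with h | h
      · rw [← Cardinal.mk_Icc_real h]
        exact Cardinal.mk_le_mk_of_subset (hI.out ha hb)
      · rw [← Cardinal.mk_Icc_real h]
        exact Cardinal.mk_le_mk_of_subset (hI.out hb ha)
  let m0 : MeasurableSpace I := borel I
  have hm0 : #{s : Set I // MeasurableSet[m0] s} ≤ 𝔠 := by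
    have hcs : m0 = MeasurableSpace.generateFrom (TopologicalSpace.countableBasis I) :=
      (TopologicalSpace.isBasis_countableBasis I).borel_eq_generateFrom
    have := MeasurableSpace.cardinal_measurableSet_le_continuum
      (s := TopologicalSpace.countableBasis I)
      ((Cardinal.le_aleph0_iff_set_countable.mpr (TopologicalSpace.countable_countableBasis I)).trans
        Cardinal.aleph0_le_continuum)
    rw [hcs]
    exact this
  have hJm : ∀ J : Set ℝ, J.OrdConnected → MeasurableSet[m0] ((↑) ⁻¹' J : Set I) := by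
    intro J hJc
    have hmeas : @Measurable I ℝ m0 (borel ℝ) (Subtype.val : I → ℝ) :=
      continuous_subtype_val.borel_measurable
    apply hmeas
    have := hJc.measurableSet
    rwa [BorelSpace.measurable_eq (α := ℝ)] at this
  obtain ⟨lo, wf, hord⟩ := Cardinal.exists_ord_eq_type_lt I
  obtain ⟨h1, X, hX⟩ := @core I lo wf hcard hord m0 hm0
  let N0 : MeasurableSpace I := @bigAlg I lo m0
  have hle : ∀ B : Set I, MeasurableSet[m0] B → MeasurableSet[N0] B := by
    intro B hB
    exact ⟨B, hB, fun _ => id, fun _ _ => Iff.rfl⟩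
  refine ⟨{A | A ⊆ I ∧ MeasurableSet[N0] ((↑) ⁻¹' A : Set I)}, fun A hA => hA.1, ?_, ?_, ?_, ?_, ?_⟩
  · intro J hJ hJc
    exact ⟨hJ, hle _ (hJm J hJc)⟩
  · rintro A ⟨hA, hm⟩
    refine ⟨Set.sdiff_subset, ?_⟩
    have : ((↑) ⁻¹' (I \ A) : Set I) = ((↑) ⁻¹' A : Set I)ᶜ := by
      ext x; simp
    rw [this]
    exact hm.compl
  · intro A hA
    refine ⟨Set.iUnion_subset (fun n => (hA n).1), ?_⟩
    rw [Set.preimage_iUnion]
    exact MeasurableSet.iUnion (fun n => (hA n).2)
  · intro P hP hdisj hU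
    have hPI : ∀ p ∈ P, p ⊆ I := fun p hp => hU ▸ Set.subset_sUnion_of_mem hp
    have hQ1 : ∀ q ∈ (fun p : Set ℝ => ((↑) ⁻¹' p : Set I)) '' P, q.Nontrivial := by
      rintro _ ⟨p, hp, rfl⟩
      obtain ⟨x, hx, y, hy, hxy⟩ := hP p hp
      exact ⟨⟨x, hPI p hp hx⟩, hx, ⟨y, hPI p hp hy⟩, hy, fun h => hxy (congrArg Subtype.val h)⟩
    have hQ2 : ((fun p : Set ℝ => ((↑) ⁻¹' p : Set I)) '' P).PairwiseDisjoint id := by
      rintro _ ⟨p, hp, rfl⟩ _ ⟨q, hq, rfl⟩ hne
      have hpq : p ≠ q := fun h => hne (by rw [h])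
      have hd : Disjoint p q := hdisj hp hq hpq
      exact hd.preimage _
    obtain ⟨S, hS, hsel⟩ := h1 _ hQ1 hQ2
    refine ⟨(↑) '' S, ⟨by rintro _ ⟨x, _, rfl⟩; exact x.2, ?_⟩, ?_⟩
    · rw [Set.preimage_image_eq _ Subtype.val_injective]
      exact hS
    · intro p hp
      obtain ⟨x, ⟨hxS, hxp⟩, hx⟩ := hsel _ ⟨p, hp, rfl⟩
      refine ⟨x.1, ⟨⟨x, hxS, rfl⟩, hxp⟩, ?_⟩
      rintro y ⟨⟨z, hz, rfl⟩, hy⟩
      rw [hx z ⟨hz, hy⟩]
  · refine ⟨(↑) '' X, by rintro _ ⟨x, _, rfl⟩; exact x.2, ?_⟩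
    rintro ⟨_, hm⟩
    rw [Set.preimage_image_eq _ Subtype.val_injective] at hm
    exact hX hm

end Pool.Agent.Results.MP_04ddd8_lc.SelectorAlgebra
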